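import Pool.Agent.R970.WM.AbFinal

open MeasureTheory Set

namespace Pool.Agent.Results.MP_8d8e6a_an.TorusExtensions

open R970.WM

/-- For every weakly mixing interval exchange transformation `T = iet π lam` and every torus
`G = UnitAddTorus (Fin r)`, for Haar almost every `g ∈ Gⁿ` the `G`-extension of `T` by the simple
function `g` is weakly mixing. -/
theorem result (n : ℕ) [NeZero n] (hn : 2 ≤ n) (π : Equiv.Perm (Fin n)) (lam : Fin n → ℝ)
    (hpos : ∀ k, 0 < lam k) (hsum : ∑ k, lam k = 1) (hwm : WeakMix (iet π lam) U) (r : ℕ) :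
    ∀ᵐ g : Fin n → UnitAddTorus (Fin r),
      WeakMix (skew (iet π lam) (idx lam) g) (U.prod (volume : Measure (UnitAddTorus (Fin r)))) :=
  abFinal n hn π lam hpos hsum hwm r

end Pool.Agent.Results.MP_8d8e6a_an.TorusExtensions
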